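import Mathlib

/-!
The Perron vector of a matrix with positive entries (Collatz-Wielandt), its uniqueness, and the
eigenvalue equation for matrices commuting with it.
-/

set_option autoImplicit false

namespace Pool.Agent.ETPF

variable {ι : Type} [Fintype ι]

/-- action of a matrix on a vector -/
def ap (M : ι → ι → ℝ) (p : ι → ℝ) (i : ι) : ℝ := ∑ j, M i j * p j

/-- product of matrices -/
def mm (A B : ι → ι → ℝ) (i j : ι) : ℝ := ∑ k, A i k * B k j

theorem ap_mm (A B : ι → ι → ℝ) (p : ι → ℝ) : ap (mm A B) p = ap A (ap B p) := by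
  funext i
  unfold ap mm
  simp only [Finset.sum_mul, Finset.mul_sum]
  rw [Finset.sum_comm]
  exact Finset.sum_congr rfl fun k _ => Finset.sum_congr rfl fun j _ => by ring

theorem ap_smul (A : ι → ι → ℝ) (t : ℝ) (p : ι → ℝ) (i : ι) :
    ap A (fun j => t * p j) i = t * ap A p i := by
  unfold ap
  rw [Finset.mul_sum]
  exact Finset.sum_congr rfl fun j _ => by ring

theorem ap_sub (A : ι → ι → ℝ) (p w : ι → ℝ) (i : ι) :
    ap A (fun j => p j - w j) i = ap A p i - ap A w i := by
  unfold ap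
  rw [← Finset.sum_sub_distrib]
  exact Finset.sum_congr rfl fun j _ => by ring

/-- a positive matrix makes a nonzero nonnegative vector positive -/
theorem ap_pos {M : ι → ι → ℝ} (hM : ∀ i j, 0 < M i j) {p : ι → ℝ} (h0 : ∀ i, 0 ≤ p i)
    {i0 : ι} (h1 : 0 < p i0) (i : ι) : 0 < ap M p i := by
  unfold ap
  exact Finset.sum_pos' (fun j _ => mul_nonneg (hM i j).le (h0 j))
    ⟨i0, Finset.mem_univ _, mul_pos (hM i i0) h1⟩

/-- the set of the Collatz-Wielandt optimisation -/
def CW (M : ι → ι → ℝ) : Set (ℝ × (ι → ℝ)) :=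
  {z | 0 ≤ z.1 ∧ (∀ i, 0 ≤ z.2 i) ∧ ∑ i, z.2 i = 1 ∧ ∀ i, z.1 * z.2 i ≤ ap M z.2 i}

theorem continuous_ap (M : ι → ι → ℝ) (i : ι) :
    Continuous fun z : ℝ × (ι → ℝ) => ap M z.2 i := by
  unfold ap
  fun_prop

theorem CW_closed (M : ι → ι → ℝ) : IsClosed (CW M) := by
  have h1 : IsClosed {z : ℝ × (ι → ℝ) | 0 ≤ z.1} :=
    isClosed_le continuous_const continuous_fst
  have h2 : IsClosed {z : ℝ × (ι → ℝ) | ∀ i, 0 ≤ z.2 i} := by
    simp only [Set.ofPred_forall]
    exact isClosed_iInter fun i => isClosed_le continuous_const (by fun_prop)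
  have h3 : IsClosed {z : ℝ × (ι → ℝ) | ∑ i, z.2 i = 1} :=
    isClosed_eq (by fun_prop) continuous_const
  have h4 : IsClosed {z : ℝ × (ι → ℝ) | ∀ i, z.1 * z.2 i ≤ ap M z.2 i} := by
    simp only [Set.ofPred_forall]
    exact isClosed_iInter fun i => isClosed_le (by fun_prop) (continuous_ap M i)
  exact h1.inter (h2.inter (h3.inter h4))

theorem CW_sub {M : ι → ι → ℝ} (hM : ∀ i j, 0 < M i j) :
    CW M ⊆ Set.Icc 0 (∑ i, ∑ j, M i j) ×ˢ Set.Icc (fun _ => 0) (fun _ => 1) := by
  rintro ⟨t, p⟩ ⟨h1, h2, h3, h4⟩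
  simp only at h1 h2 h3 h4
  have h5 : ∀ i, p i ≤ 1 := fun i => by
    rw [← h3]
    exact Finset.single_le_sum (fun j _ => h2 j) (Finset.mem_univ i)
  refine ⟨⟨h1, ?_⟩, ⟨fun i => h2 i, fun i => h5 i⟩⟩
  have h6 : t = ∑ i, t * p i := by rw [← Finset.mul_sum, h3, mul_one]
  change t ≤ _
  rw [h6]
  refine Finset.sum_le_sum fun i _ => (h4 i).trans ?_
  unfold ap
  refine Finset.sum_le_sum fun j _ => ?_
  calc M i j * p j ≤ M i j * 1 := mul_le_mul_of_nonneg_left (h5 j) (hM i j).le
    _ = M i j := mul_one _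

/-- **Perron**: a matrix with positive entries has a positive eigenvector, unique up to scalars -/
theorem perron [Nonempty ι] {M : ι → ι → ℝ} (hM : ∀ i j, 0 < M i j) :
    ∃ (p : ι → ℝ) (μ : ℝ), (∀ i, 0 < p i) ∧ 0 < μ ∧ (∀ i, ap M p i = μ * p i) ∧
      ∀ w : ι → ℝ, (∀ i, ap M w i = μ * w i) → ∃ t : ℝ, ∀ i, w i = t * p i := by
  classical
  have hcard : (0 : ℝ) < Fintype.card ι := by exact_mod_cast Fintype.card_pos
  have hne : (CW M).Nonempty := by
    refine ⟨(0, fun _ => (Fintype.card ι : ℝ)⁻¹), le_rfl, fun i => by positivity, ?_, fun i => ?_⟩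
    · simp only [Finset.sum_const, Finset.card_univ, nsmul_eq_mul]
      exact mul_inv_cancel₀ hcard.ne'
    · rw [zero_mul]
      unfold ap
      exact Finset.sum_nonneg fun j _ => mul_nonneg (hM i j).le (by positivity)
  have hcomp : IsCompact (CW M) :=
    ((isCompact_Icc).prod isCompact_Icc).of_isClosed_subset (CW_closed M) (CW_sub hM)
  obtain ⟨⟨t, p⟩, ⟨h1, h2, h3, h4⟩, hmax⟩ :=
    hcomp.exists_isMaxOn hne continuous_fst.continuousOn
  simp only at h1 h2 h3 h4
  -- some entry is positive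
  obtain ⟨i0, hi0⟩ : ∃ i, 0 < p i := by
    by_contra hcon
    push Not at hcon
    have : ∑ i, p i = 0 := Finset.sum_eq_zero fun i _ => le_antisymm (hcon i) (h2 i)
    rw [this] at h3
    exact zero_ne_one h3
  have hMp := ap_pos hM h2 hi0
  -- the equation
  have heq : ∀ i, ap M p i = t * p i := by
    by_contra hcon
    push Not at hcon
    obtain ⟨i1, hi1⟩ := hcon
    have hd : ∀ i, 0 ≤ ap M p i - t * p i := fun i => sub_nonneg.2 (h4 i)
    have hd1 : 0 < ap M p i1 - t * p i1 := lt_of_le_of_ne (hd i1) fun h => hi1 (by linarith)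
    have h5 := ap_pos hM hd hd1
    -- `w = M p` satisfies `M w > t w`
    have h6 : ∀ i, t * ap M p i < ap M (ap M p) i := by
      intro i
      have := h5 i
      have e1 : ap M (fun j => ap M p j - t * p j) i = ap M (ap M p) i - t * ap M p i := by
        rw [ap_sub M (ap M p) (fun j => t * p j), ap_smul]
      rw [e1] at this
      linarith
    set s := ∑ i, ap M p i with hs
    have hs0 : 0 < s := Finset.sum_pos (fun i _ => hMp i) Finset.univ_nonempty
    -- a slightly larger `t`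
    obtain ⟨i2, -, hi2⟩ := Finset.exists_min_image Finset.univ
      (fun i => ap M (ap M p) i / ap M p i) Finset.univ_nonempty
    have h7 : (ap M (ap M p) i2 / ap M p i2, fun i => s⁻¹ * ap M p i) ∈ CW M := by
      refine ⟨?_, fun i => mul_nonneg (inv_nonneg.2 hs0.le) (hMp i).le, ?_, fun i => ?_⟩
      · exact div_nonneg ((mul_nonneg h1 (hMp i2).le).trans (h6 i2).le) (hMp i2).le
      · change ∑ i, s⁻¹ * ap M p i = 1
        rw [← Finset.mul_sum, ← hs]
        exact inv_mul_cancel₀ hs0.ne'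
      · change ap M (ap M p) i2 / ap M p i2 * (s⁻¹ * ap M p i) ≤ ap M (fun i => s⁻¹ * ap M p i) i
        rw [ap_smul]
        have h8 := hi2 i (Finset.mem_univ _)
        have h9 : ap M (ap M p) i2 / ap M p i2 * ap M p i ≤ ap M (ap M p) i := by
          calc ap M (ap M p) i2 / ap M p i2 * ap M p i
              ≤ ap M (ap M p) i / ap M p i * ap M p i :=
                mul_le_mul_of_nonneg_right h8 (hMp i).le
            _ = ap M (ap M p) i := div_mul_cancel₀ _ (hMp i).ne'
        calc ap M (ap M p) i2 / ap M p i2 * (s⁻¹ * ap M p i)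
            = s⁻¹ * (ap M (ap M p) i2 / ap M p i2 * ap M p i) := by ring
          _ ≤ s⁻¹ * ap M (ap M p) i := mul_le_mul_of_nonneg_left h9 (inv_nonneg.2 hs0.le)
    have h10 := hmax h7
    have h11 : t < ap M (ap M p) i2 / ap M p i2 := by
      rw [lt_div_iff₀ (hMp i2)]
      exact h6 i2
    exact absurd h10 (not_le.2 h11)
  have ht : 0 < t := by
    have h5 := hMp i0
    rw [heq i0] at h5
    exact pos_of_mul_pos_left h5 (h2 i0)
  have hp : ∀ i, 0 < p i := by
    intro i
    have h5 := hMp i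
    rw [heq i] at h5
    exact pos_of_mul_pos_right h5 h1
  refine ⟨p, t, hp, ht, heq, ?_⟩
  intro w hw
  obtain ⟨i2, -, hi2⟩ := Finset.exists_min_image Finset.univ (fun i => w i / p i)
    Finset.univ_nonempty
  refine ⟨w i2 / p i2, ?_⟩
  have hd : ∀ i, 0 ≤ w i - w i2 / p i2 * p i := by
    intro i
    have h8 := hi2 i (Finset.mem_univ _)
    have : w i2 / p i2 * p i ≤ w i := by
      calc w i2 / p i2 * p i ≤ w i / p i * p i := mul_le_mul_of_nonneg_right h8 (hp i).le
        _ = w i := div_mul_cancel₀ _ (hp i).ne'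
    linarith
  by_contra hcon
  push Not at hcon
  obtain ⟨i1, hi1⟩ := hcon
  have hd1 : 0 < w i1 - w i2 / p i2 * p i1 :=
    lt_of_le_of_ne (hd i1) fun h => hi1 (by linarith)
  have h5 := ap_pos hM hd hd1 i2
  have e1 : ap M (fun j => w j - w i2 / p i2 * p j) i2 = 0 := by
    rw [ap_sub M w (fun j => w i2 / p i2 * p j), ap_smul, hw i2, heq i2]
    have : w i2 / p i2 * (t * p i2) = t * w i2 := by
      have hp2 := (hp i2).ne'
      field_simp
    rw [this]
    ring
  rw [e1] at h5
  exact lt_irrefl _ h5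

/-- a matrix commuting with `M` has the Perron vector of `M` as eigenvector -/
theorem comm_eig {M A : ι → ι → ℝ} {p : ι → ℝ} {μ : ℝ} (hp : ∀ i, ap M p i = μ * p i)
    (hu : ∀ w : ι → ℝ, (∀ i, ap M w i = μ * w i) → ∃ t : ℝ, ∀ i, w i = t * p i)
    (hc : mm M A = mm A M) : ∃ a : ℝ, ∀ i, ap A p i = a * p i := by
  refine hu (ap A p) fun i => ?_
  have h1 : ap M (ap A p) = ap A (ap M p) := by rw [← ap_mm, ← ap_mm, hc]
  have h2 : ap M p = fun j => μ * p j := funext hp
  rw [h1, h2, ap_smul]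

/-- pairing a nonnegative difference with the positive vector: a row of `A ≤ B` entrywise with
the same eigenvalue -/
theorem row_eq {A B : ι → ι → ℝ} {p : ι → ℝ} (hp : ∀ i, 0 < p i) {i : ι}
    (hle : ∀ j, A i j ≤ B i j) (h : ap A p i = ap B p i) (j : ι) : A i j = B i j := by
  have h1 : ∑ j, (B i j - A i j) * p j = 0 := by
    have : ∑ j, (B i j - A i j) * p j = ap B p i - ap A p i := by
      unfold ap
      rw [← Finset.sum_sub_distrib]
      exact Finset.sum_congr rfl fun j _ => by ring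
    rw [this, h, sub_self]
  have h2 := (Finset.sum_eq_zero_iff_of_nonneg fun j _ =>
    mul_nonneg (sub_nonneg.2 (hle j)) (hp j).le).1 h1 j (Finset.mem_univ _)
  rcases mul_eq_zero.1 h2 with h3 | h3
  · linarith
  · exact absurd h3 (hp j).ne'

end Pool.Agent.ETPF
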