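import Pool.Agent.ETCR2.Hand
import Pool.Agent.ETPF.Perron

/-!
One-symbol structures: the relations `q (a, b) = 0` and `q (a, b) = c` of a quaternionic structure,
with linkage at the one symbol `c` only.
-/

set_option autoImplicit false

namespace Pool.Agent.ETPF

open Pool.Agent.Helper58.PLine (QData)
open Pool.Agent.ETCP
open Pool.Agent.ETCR2 (two aa aab)

variable {V Q : Type} [AddCommGroup V] [Module (ZMod 2) V]

/-- one-symbol structure: `Z a b` stands for `q (a, b) = 0`, `C a b` for `q (a, b) = c` -/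
structure OS (V : Type) [AddCommGroup V] [Module (ZMod 2) V] where
  /-- `q (a, b) = 0` -/
  Z : V → V → Prop
  /-- `q (a, b) = c` -/
  C : V → V → Prop
  zs : ∀ {a b}, Z a b → Z b a
  cs : ∀ {a b}, C a b → C b a
  zz : ∀ a, Z a a
  z0 : ∀ a, Z a 0
  za : ∀ {a b b'}, Z a b → Z a b' → Z a (b + b')
  cc : ∀ {a b b'}, C a b → C a b' → Z a (b + b')
  cz : ∀ {a b b'}, C a b → Z a b' → C a (b + b')
  ne : ∀ {a b}, C a b → ¬ Z a b
  link : ∀ {a b a' b'}, C a b → C a' b' → ∃ r, C a r ∧ C a' r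

/-- the one-symbol structure of a quaternionic structure at the symbol `q (x, u) ≠ 0` -/
def ofQ (D : QData V Q) (he : D.e = 0) {x u : V} (hu : ¬ ETCP.C D x u) : OS V where
  Z := ETCP.C D
  C a b := D.q a b = D.q x u
  zs := fun h => h.symm
  cs := fun h => by rw [D.symm]; exact h
  zz := fun a => C.self he a
  z0 := fun a => ETCR2.cz D a
  za := fun h h' => h.add h'
  cc := fun {a b b'} h h' => (D.add a b b').1 (h.trans h'.symm)
  cz := fun {a b b'} h h' => by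
    rw [← h]
    refine ((D.add a b (b + b')).2 ?_).symm
    rw [aa]; exact h'
  ne := fun {a b} h h' => hu (h.symm.trans h')
  link := fun {a b a' b'} h h' => by
    obtain ⟨r, h1, h2⟩ := D.link a b a' b' (h.trans h'.symm)
    exact ⟨r, h1.symm.trans h, h2.symm.trans h'⟩

namespace OS

variable (O : OS V)

/-- `c ∈ Q_a` -/
def Sl (a : V) : Prop := ∃ r, O.C a r

variable {O}

theorem z0' (a : V) : O.Z 0 a := O.zs (O.z0 a)

theorem za' {a a' b : V} (h : O.Z a b) (h' : O.Z a' b) : O.Z (a + a') b :=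
  O.zs (O.za (O.zs h) (O.zs h'))

theorem cc' {a a' b : V} (h : O.C a b) (h' : O.C a' b) : O.Z (a + a') b :=
  O.zs (O.cc (O.cs h) (O.cs h'))

theorem cz' {a a' b : V} (h : O.C a b) (h' : O.Z a' b) : O.C (a + a') b :=
  O.cs (O.cz (O.cs h) (O.zs h'))

theorem zc {a b b' : V} (h : O.Z a b) (h' : O.C a b') : O.C a (b + b') := by
  rw [add_comm]; exact O.cz h' h

theorem zc' {a a' b : V} (h : O.Z a b) (h' : O.C a' b) : O.C (a + a') b := by
  rw [add_comm]; exact cz' h' h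

/-- two slots of `c` have a common partner -/
theorem common {s t : V} (hs : O.Sl s) (ht : O.Sl t) : ∃ r, O.C s r ∧ O.C t r := by
  obtain ⟨a, ha⟩ := hs
  obtain ⟨b, hb⟩ := ht
  exact O.link ha hb

theorem Sl.right {a r : V} (h : O.C a r) : O.Sl r := ⟨a, O.cs h⟩

theorem Sl.left {a r : V} (h : O.C a r) : O.Sl a := ⟨r, h⟩

/-- for slots `t`: `s + t` is a slot if and only if `V_s` meets `{r | q (t, r) = c}` -/
theorem sl_add {s t : V} (ht : O.Sl t) : O.Sl (s + t) ↔ ∃ r, O.Z s r ∧ O.C t r := by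
  constructor
  · intro h
    obtain ⟨r, h1, h2⟩ := common h ht
    refine ⟨r, ?_, h2⟩
    have := cc' h1 h2
    rwa [aab] at this
  · rintro ⟨r, h1, h2⟩
    exact ⟨r, zc' h1 h2⟩

/-- **LAW SUB** for the slot `x`: the union of the `q (x, V_b)`, `b ∈ V_x` slots, is a subgroup of
`Q_x` (as a set of `t` with `q (x, t)` in it; `b = x + l`) -/
def SUB (O : OS V) (x : V) : Prop := ∀ t t',
  (∃ l v s, O.Z x l ∧ O.C x v ∧ O.Z l v ∧ O.Z x (t + s) ∧ O.Z (x + l) s) →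
  (∃ l v s, O.Z x l ∧ O.C x v ∧ O.Z l v ∧ O.Z x (t' + s) ∧ O.Z (x + l) s) →
  ∃ l v s, O.Z x l ∧ O.C x v ∧ O.Z l v ∧ O.Z x (t + t' + s) ∧ O.Z (x + l) s

/-- **LAW MAXB** for the slot `x`: one `q (x, V_b)`, `b ∈ V_x` a slot, contains all the others -/
def MAXB (O : OS V) (x : V) : Prop := ∃ b, O.Z x b ∧ O.Sl b ∧ ∀ b', O.Z x b' → O.Sl b' →
  ∀ s, O.Z b' s → ∃ t, O.Z x (s + t) ∧ O.Z b t

/-- `l` and `b = x + l` -/
theorem slot_iff {x l : V} (hx : O.Sl x) : O.Sl (x + l) ↔ ∃ v, O.C x v ∧ O.Z l v := by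
  rw [add_comm, sl_add hx]
  exact ⟨fun ⟨r, h1, h2⟩ => ⟨r, h2, h1⟩, fun ⟨r, h1, h2⟩ => ⟨r, h2, h1⟩⟩

theorem sub_of_maxb {x : V} (hx : O.Sl x) (h : MAXB O x) : SUB O x := by
  obtain ⟨b, hb, sb, hmax⟩ := h
  -- everything in terms of `b`
  have key : ∀ t, (∃ l v s, O.Z x l ∧ O.C x v ∧ O.Z l v ∧ O.Z x (t + s) ∧ O.Z (x + l) s) ↔
      ∃ s, O.Z x (t + s) ∧ O.Z b s := by
    intro t
    constructor
    · rintro ⟨l, v, s, h1, h2, h3, h4, h5⟩
      obtain ⟨t', h6, h7⟩ := hmax (x + l) (O.za (O.zz x) h1) ((slot_iff hx).2 ⟨v, h2, h3⟩) s h5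
      refine ⟨t', ?_, h7⟩
      have := O.za h4 h6
      have e : t + s + (s + t') = t + t' := eo (by
        abel_nf <;> simp only [ch2, ch3, ch4, add_zero, zero_add])
      rwa [e] at this
    · rintro ⟨s, h1, h2⟩
      have e : x + (x + b) = b := aa x b
      have sb' : O.Sl (x + (x + b)) := by rw [e]; exact sb
      obtain ⟨v, h3, h4⟩ := (slot_iff hx).1 sb'
      exact ⟨x + b, v, s, O.za (O.zz x) hb, h3, h4, h1, by rw [e]; exact h2⟩
  intro t t' h1 h2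
  rw [key] at h1 h2 ⊢
  obtain ⟨s, h3, h4⟩ := h1
  obtain ⟨s', h5, h6⟩ := h2
  refine ⟨s + s', ?_, O.za h4 h6⟩
  have := O.za h3 h5
  have e : t + s + (t' + s') = t + t' + (s + s') := by abel
  rwa [e] at this

end OS

/-- the class `N (c) ∪ 0` in the one-symbol structure -/
theorem nb_iff (D : QData V Q) (he : D.e = 0) {x u : V} (hu : ¬ ETCP.C D x u) (t : V) :
    ETCR2.Nb D x u t ↔ ∃ l v s, (ofQ D he hu).Z x l ∧ (ofQ D he hu).C x v ∧ (ofQ D he hu).Z l v ∧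
      (ofQ D he hu).Z x (t + s) ∧ (ofQ D he hu).Z (x + l) s := by
  constructor
  · rintro ⟨l, v, s, h1, h2, h3, h4, h5⟩
    exact ⟨l, v, s, h1, (q_eq h2).symm, h3, h4, h5⟩
  · rintro ⟨l, v, s, h1, h2, h3, h4, h5⟩
    exact ⟨l, v, s, h1, q_eq_iff.1 (show D.q x u = D.q x v from Eq.symm h2), h3, h4, h5⟩

/-- LAW SUB for all one-symbol structures on `V` refutes world A (note 2622). -/
theorem worldA_of_SUB [Finite V] (D : QData V Q) (he : D.e = 0) {x u0 : V}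
    (hu0 : ¬ ETCP.C D x u0)
    (mr : ∀ v, v ≠ 0 → Nat.card (D.ann v) ≤ Nat.card (D.ann x)) (k4 : ETCD2.K4At D x)
    (hA : ∀ u k l, ¬ ETCP.C D x u → ETCP.C D x k → ETCP.C D x l → D.q k l ≠ D.q x u)
    (sub : ∀ (O : OS V) (y : V), O.Sl y → O.SUB y) : False := by
  refine ETCR2.parity_sub he hu0 mr k4 hA fun u t t' hu h1 h2 => ?_
  rw [nb_iff D he hu] at h1 h2 ⊢
  exact sub (ofQ D he hu) x ⟨u, rfl⟩ t t' h1 h2

end Pool.Agent.ETPF
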