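import Pool.Agent.ETPF.Sym

/-!
LAW ST for the prime symbols of `Q_x` refutes minimal exotics (notes 2633 of helper37, 2658 of
helper5, 2637 of helper52), by D2C+ and the symbol with the smallest set of slots.
-/

set_option autoImplicit false
set_option linter.unusedSimpArgs false
set_option linter.unnecessarySeqFocus false
set_option linter.unusedSectionVars false

namespace Pool.Agent.ETPF

open Pool.Agent.Helper58.PLine (QData)
open Pool.Agent.ETCP

variable {V Q : Type} [AddCommGroup V] [Module (ZMod 2) V] {D : QData V Q}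

/-- `K (g) = ⟨g⟩`: no other nonzero symbol has all the slots of `g` -/
def Pri (D : QData V Q) (g : Q) : Prop := ∀ d, d ≠ D.z → (∀ s, Sg D g s → Sg D d s) → d = g

/-- **LAW ST** at the symbol `g` and its slot `x`: `S_g ∩ V_x ⊆ x + Stab (S_g)` -/
def ST (D : QData V Q) (g : Q) (x : V) : Prop :=
  ∀ b, C D x b → Sg D g b → ∀ s, Sg D g s → Sg D g (s + (x + b))

/-- **(P2)** (note 2658, helper5): a symbol `g` which is not prime is the sum of two symbols `d`,
`f` with `S_g = S_d ∩ S_f`, both strictly larger -/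
theorem split_symbol [Finite V] {g : Q} {x : V} (hx : Sg D g x)
    (hn : ¬ Pri D g) : ∃ d f, d ≠ D.z ∧ f ≠ D.z ∧ d ≠ g ∧ f ≠ g ∧
      ∀ s, Sg D g s ↔ Sg D d s ∧ Sg D f s := by
  unfold Pri at hn
  push Not at hn
  obtain ⟨d, h1, h2, h3⟩ := hn
  obtain ⟨a, ha⟩ := hx
  obtain ⟨b, hb⟩ := h2 x ⟨a, ha⟩
  refine ⟨d, D.q x (a + b), h1, ?_, h3, ?_, fun s => ⟨fun hs => ⟨h2 s hs, ?_⟩, ?_⟩⟩
  · intro h
    exact h3 (hb.symm.trans (((D.add x a b).2 h).symm.trans ha))
  · intro h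
    apply h1
    have h4 : C D x (a + b + a) := q_eq_iff.1 (h.trans ha.symm)
    rw [← hb]
    exact h4.of_eq rfl (eo (by abel_nf <;> simp only [ch2, ch3, ch4, add_zero, zero_add]))
  · obtain ⟨a', ha'⟩ := hs
    obtain ⟨b', hb'⟩ := h2 s ⟨a', ha'⟩
    exact ⟨a' + b', ETC.add_common (ha'.trans ha.symm) (hb'.trans hb.symm)⟩
  · rintro ⟨⟨b', hb'⟩, ⟨c', hc'⟩⟩
    refine ⟨b' + c', ?_⟩
    rw [ETC.add_common (hb'.trans hb.symm) hc', ← ha]
    congr 1
    exact eo (by abel_nf <;> simp only [ch2, ch3, ch4, add_zero, zero_add])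

theorem ncard_lt [Finite V] {g d : Q} {x : V} (hx : Sg D g x) (hd : d ≠ g)
    (h : ∀ s, Sg D g s → Sg D d s) : {s | ¬ Sg D d s}.ncard < {s | ¬ Sg D g s}.ncard := by
  apply Set.ncard_lt_ncard _ (Set.toFinite _)
  refine ⟨fun s hs hs' => hs (h s hs'), fun hcon => hd ?_⟩
  refine (sg_inj hx fun s => ⟨h s, fun hs => ?_⟩).symm
  by_contra hs'
  exact hcon hs' hs

/-- **(P3)** (note 2658): LAW ST at all prime symbols of `Q_x` gives it at all symbols of `Q_x` -/
theorem ST_all [Finite V] {x : V}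
    (st : ∀ g, g ≠ D.z → Sg D g x → Pri D g → ST D g x) :
    ∀ g, g ≠ D.z → Sg D g x → ST D g x := by
  suffices h : ∀ n : ℕ, ∀ g, {s | ¬ Sg D g s}.ncard = n → g ≠ D.z → Sg D g x → ST D g x from
    fun g => h _ g rfl
  intro n
  induction n using Nat.strong_induction_on with
  | _ n ih =>
    intro g hn hg hx
    by_cases hp : Pri D g
    · exact st g hg hx hp
    · obtain ⟨d, f, h1, h2, h3, h4, h5⟩ := split_symbol hx hp
      have hd := ih _ (by rw [← hn]; exact ncard_lt hx h3 fun s hs => ((h5 s).1 hs).1) d rfl h1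
        ((h5 x).1 hx).1
      have hf := ih _ (by rw [← hn]; exact ncard_lt hx h4 fun s hs => ((h5 s).1 hs).2) f rfl h2
        ((h5 x).1 hx).2
      intro b hb sb s ss
      exact (h5 _).2 ⟨hd b hb ((h5 b).1 sb).1 s ((h5 s).1 ss).1,
        hf b hb ((h5 b).1 sb).2 s ((h5 s).1 ss).2⟩

/-- **LAW ST at the prime symbols of `Q_x`, `x` of minimal rank, refutes a structure with
`K4At`.** -/
theorem false_of_ST [Finite V] (he : D.e = 0) {x u0 : V} (hu0 : ¬ C D x u0)
    (mr : ∀ v, v ≠ 0 → Nat.card (D.ann v) ≤ Nat.card (D.ann x)) (k4 : ETCD2.K4At D x)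
    (st : ∀ g, g ≠ D.z → Sg D g x → Pri D g → ST D g x) : False := by
  have st' := ST_all st
  -- the symbol with the smallest set of slots
  let A : Set ℕ := {n | ∃ u, ¬ C D x u ∧ {s | Sg D (D.q x u) s}.ncard = n}
  have hA : A.Nonempty := ⟨_, u0, hu0, rfl⟩
  obtain ⟨u, hu, hmin⟩ := Nat.sInf_mem hA
  obtain ⟨l, v, t, h1, h2, h3, h4, h5, h6⟩ := ETCR2.genuine he mr k4 hu
  -- `q (x, v) = c`
  have hv : D.q x v = D.q x u := (q_eq h2).symm
  have sx : Sg D (D.q x u) x := ⟨u, rfl⟩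
  have hb : C D x (x + l) := (C.self he x).add h1
  have sb : Sg D (D.q x u) (x + l) := by
    refine ⟨v, ?_⟩
    rw [← hv]
    exact q_eq' (h3.of_eq (eo (by
      abel_nf <;> simp only [ch2, ch3, ch4, add_zero, zero_add])) rfl)
  have hl : ∀ s, Sg D (D.q x u) s → Sg D (D.q x u) (s + l) := by
    intro s hs
    have := st' _ hu sx (x + l) hb sb s hs
    rwa [ETCR2.aa] at this
  -- all `r` with `q (x, r) = c + e` are slots of `c`
  have h7 : ∀ r, D.q x r = D.q x (v + t) → Sg D (D.q x u) r := by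
    intro r hr
    have h8 : C D x (v + t + r) := (q_eq_iff.1 hr).of_eq rfl (add_comm _ _)
    have h9 := typeI hv hl h4 h8
    have e : v + t + (v + t + r) = r := eo (by
      abel_nf <;> simp only [ch2, ch3, ch4, add_zero, zero_add])
    rwa [e] at h9
  have h8 : ¬ C D x (v + t) := by
    intro h
    apply h6
    exact (h.add h2).of_eq rfl (eo (by
      abel_nf <;> simp only [ch2, ch3, ch4, add_zero, zero_add]))
  have h9 : ∀ s, Sg D (D.q x (v + t)) s → Sg D (D.q x u) s := fun s hs =>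
    propagate sx ⟨v + t, rfl⟩ h7 hs
  have h10 : {s | Sg D (D.q x u) s}.ncard ≤ {s | Sg D (D.q x (v + t)) s}.ncard := by
    rw [hmin]
    exact Nat.sInf_le ⟨v + t, h8, rfl⟩
  have h11 : {s | Sg D (D.q x (v + t)) s} = {s | Sg D (D.q x u) s} :=
    Set.eq_of_subset_of_ncard_le (fun s hs => h9 s hs) h10 (Set.toFinite _)
  have h12 : D.q x (v + t) = D.q x u := by
    refine sg_inj (D := D) (s0 := x) ⟨v + t, rfl⟩ fun s => ?_
    exact Set.ext_iff.1 h11 s
  rw [← hv] at h12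
  apply h5
  exact (q_eq_iff.1 h12).of_eq rfl (eo (by
    abel_nf <;> simp only [ch2, ch3, ch4, add_zero, zero_add]))

/-- the same with LAW ST as a law about one-symbol structures -/
def STlaw (O : OS V) (x : V) : Prop := ∀ b, O.Z x b → O.Sl b → ∀ s, O.Sl s → O.Sl (s + (x + b))

theorem ST_of_OS (he : D.e = 0) {x u : V} (hu : ¬ C D x u) (h : STlaw (ofQ D he hu) x) :
    ST D (D.q x u) x := fun b hb sb s ss => h b hb sb s ss

/-- slots of `g` are slots of `c`: then `N (g) ⊆ N (c)` -/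
theorem Nb.mono {x u w t : V} (h : ∀ s, Sg D (D.q x u) s → Sg D (D.q x w) s)
    (hN : ETCR2.Nb D x u t) : ETCR2.Nb D x w t := by
  obtain ⟨l, v, s, h1, h2, h3, h4, h5⟩ := hN
  have e1 : D.q (x + l) v = D.q x v := q_eq' (h3.of_eq (eo (by
    abel_nf <;> simp only [ch2, ch3, ch4, add_zero, zero_add])) rfl)
  have h6 : Sg D (D.q x u) (x + l) := ⟨v, by rw [e1]; exact (q_eq h2).symm⟩
  obtain ⟨r, h7, h8⟩ := (h _ h6).common ⟨w, rfl⟩
  refine ⟨l, r, s, h1, q_eq_iff.1 h8.symm, ?_, h4, h5⟩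
  exact (q_eq'_iff.1 (h7.trans h8.symm)).of_eq (eo (by
    abel_nf <;> simp only [ch2, ch3, ch4, add_zero, zero_add])) rfl

/-- **AC at the prime symbols of `Q_x` refutes a structure with `K4At`** (helper20, message 24976;
helper8, note 2605; helper5, note 2658): `x` of minimal rank; for prime `c = q (x, u) ≠ 0` not in
`N (c)` and `e = q (x, t) ∈ N (c)` all `r` with `q (x, r) = c + e` are slots of `c`. -/
theorem false_of_AC [Finite V] (he : D.e = 0) {x u0 : V} (hu0 : ¬ C D x u0)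
    (mr : ∀ v, v ≠ 0 → Nat.card (D.ann v) ≤ Nat.card (D.ann x)) (k4 : ETCD2.K4At D x)
    (hL : ∀ u, ¬ C D x u → Pri D (D.q x u) → ¬ ETCR2.Nb D x u u)
    (H : ∀ u t, ¬ C D x u → ¬ C D x t → ¬ C D x (u + t) → Pri D (D.q x u) →
      ETCR2.Nb D x u t → ∀ r, D.q x r = D.q x (u + t) → Sg D (D.q x u) r) : False := by
  -- `e` with the smallest set of slots
  let A : Set ℕ := {n | ∃ u, ¬ C D x u ∧ {s | Sg D (D.q x u) s}.ncard = n}
  have hA : A.Nonempty := ⟨_, u0, hu0, rfl⟩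
  obtain ⟨t, ht, hmin⟩ := Nat.sInf_mem hA
  -- its partner `g`
  obtain ⟨l, v, u, h1, h2, h3, h4, h5, h6⟩ := ETCR2.genuine he mr k4 ht
  have hg : ETCR2.Nb D x u t := by
    refine ETCR2.Nb.symm he ⟨l, v, u, h1, h2, h3, ?_, h4⟩
    rw [ETCR2.two]
    exact C.zero x
  -- `c` with `S_g ⊆ S_c` of maximal size
  let A' : Set ℕ := {n | ∃ w, ¬ C D x w ∧ (∀ s, Sg D (D.q x u) s → Sg D (D.q x w) s) ∧
    {s | ¬ Sg D (D.q x w) s}.ncard = n}
  have hA' : A'.Nonempty := ⟨_, u, h5, fun _ hs => hs, rfl⟩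
  obtain ⟨w, hw, hgw, hmax⟩ := Nat.sInf_mem hA'
  have hp : Pri D (D.q x w) := by
    intro d hd hcd
    obtain ⟨w', hw'⟩ := hcd x ⟨w, rfl⟩
    by_contra hne
    have h7 : {s | ¬ Sg D (D.q x w) s}.ncard ≤ {s | ¬ Sg D d s}.ncard := by
      rw [hmax]
      refine Nat.sInf_le ⟨w', ?_, ?_, by rw [hw']⟩
      · intro h
        exact hd (hw'.symm.trans h)
      · intro s hs
        rw [hw']
        exact hcd s (hgw s hs)
    exact absurd (ncard_lt (g := D.q x w) (d := d) ⟨w, rfl⟩ hne hcd) (not_lt.2 h7)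
  have hN : ETCR2.Nb D x w t := Nb.mono hgw hg
  have hwt : ¬ C D x (w + t) := by
    intro h
    exact hL w hw hp (hN.right (h.of_eq rfl (add_comm _ _)))
  have h7 : ∀ s, Sg D (D.q x (w + t)) s → Sg D (D.q x w) s := fun s hs =>
    propagate ⟨w, rfl⟩ ⟨w + t, rfl⟩ (H w t hw ht hwt hp hN) hs
  have h8 : ∀ s, Sg D (D.q x (w + t)) s → Sg D (D.q x t) s := by
    intro s hs
    obtain ⟨b, hb⟩ := h7 s hs
    obtain ⟨a, ha⟩ := hs
    refine ⟨a + b, ?_⟩
    rw [ETC.add_common ha hb]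
    congr 1
    exact eo (by abel_nf <;> simp only [ch2, ch3, ch4, add_zero, zero_add])
  have h9 : {s | Sg D (D.q x t) s}.ncard ≤ {s | Sg D (D.q x (w + t)) s}.ncard := by
    rw [hmin]
    exact Nat.sInf_le ⟨w + t, hwt, rfl⟩
  have h10 : {s | Sg D (D.q x (w + t)) s} = {s | Sg D (D.q x t) s} :=
    Set.eq_of_subset_of_ncard_le (fun s hs => h8 s hs) h9 (Set.toFinite _)
  have h11 : D.q x (w + t) = D.q x t :=
    sg_inj (D := D) (s0 := x) ⟨w + t, rfl⟩ fun s => Set.ext_iff.1 h10 s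
  apply hw
  exact (q_eq_iff.1 h11).of_eq rfl (eo (by
    abel_nf <;> simp only [ch2, ch3, ch4, add_zero, zero_add]))

/-- **FULL1** (helper20): `N_x + V_b ⊆ S_c` for the slots `b ∈ V_x` of the prime clean symbols `c`
of `Q_x` -/
theorem false_of_FULL1 [Finite V] (he : D.e = 0) {x u0 : V} (hu0 : ¬ C D x u0)
    (mr : ∀ v, v ≠ 0 → Nat.card (D.ann v) ≤ Nat.card (D.ann x)) (k4 : ETCD2.K4At D x)
    (hA : ∀ u k l, ¬ C D x u → C D x k → C D x l → D.q k l ≠ D.q x u)
    (full : ∀ u b r s, ¬ C D x u → Pri D (D.q x u) → C D x b → Sg D (D.q x u) b →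
      D.q x r = D.q x u → C D b s → Sg D (D.q x u) (r + s)) : False := by
  refine false_of_AC he hu0 mr k4 (fun u hu _ h => ?_) ?_
  · obtain ⟨k, l, h1, h2, h3⟩ := h.loop
    exact hA u k l hu h1 h2 h3
  · rintro u t hu - - hp ⟨l, v, s, h1, h2, h3, h4, h5⟩ r hr
    have hv : D.q x v = D.q x u := (q_eq h2).symm
    have sb : Sg D (D.q x u) (x + l) := ⟨v, by
      rw [← hv]
      exact q_eq' (h3.of_eq (eo (by
        abel_nf <;> simp only [ch2, ch3, ch4, add_zero, zero_add])) rfl)⟩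
    -- `r = (v + k) + s`
    have h6 : C D x (v + s + r) := by
      have h7 : C D x (u + t + r) := (q_eq_iff.1 hr).of_eq rfl (add_comm _ _)
      exact ((h7.add h2).add h4).of_eq rfl (eo (by
        abel_nf <;> simp only [ch2, ch3, ch4, add_zero, zero_add]))
    have h8 : D.q x (v + (v + s + r)) = D.q x u := qa hv h6
    have h9 := full u (x + l) _ s hu hp ((C.self he x).add h1) sb h8 h5
    have e : v + (v + s + r) + s = r := eo (by
      abel_nf <;> simp only [ch2, ch3, ch4, add_zero, zero_add])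
    rwa [e] at h9

end Pool.Agent.ETPF
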