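import Pool.Agent.ETPF.ST

/-!
LAW SUB is needed only for the prime symbols (note 2677, helper55).
-/

set_option autoImplicit false
set_option linter.unusedSimpArgs false
set_option linter.unnecessarySeqFocus false
set_option linter.unusedSectionVars false

namespace Pool.Agent.ETPF

open Pool.Agent.Helper58.PLine (QData)
open Pool.Agent.ETCP

variable {V Q : Type} [AddCommGroup V] [Module (ZMod 2) V] {D : QData V Q}

/-- `split_symbol` with the sum -/
theorem split_symbol' [Finite V] {x u : V} (hn : ¬ Pri D (D.q x u)) :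
    ∃ b, ¬ C D x b ∧ ¬ C D x (u + b) ∧
      (∀ s, Sg D (D.q x u) s → Sg D (D.q x b) s) ∧
      (∀ s, Sg D (D.q x u) s → Sg D (D.q x (u + b)) s) ∧
      {s | ¬ Sg D (D.q x b) s}.ncard < {s | ¬ Sg D (D.q x u) s}.ncard ∧
      {s | ¬ Sg D (D.q x (u + b)) s}.ncard < {s | ¬ Sg D (D.q x u) s}.ncard := by
  unfold Pri at hn
  push Not at hn
  obtain ⟨d, h1, h2, h3⟩ := hn
  obtain ⟨b, hb⟩ := h2 x ⟨u, rfl⟩
  have hb0 : ¬ C D x b := fun h => h1 (hb.symm.trans h)
  have hub : ¬ C D x (u + b) := by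
    intro h
    apply h3
    rw [← hb]
    exact (q_eq h).symm
  have hf : ∀ s, Sg D (D.q x u) s → Sg D (D.q x (u + b)) s := by
    intro s hs
    obtain ⟨b', hb'⟩ := h2 s hs
    obtain ⟨a', ha'⟩ := hs
    exact ⟨a' + b', ETC.add_common ha' (hb'.trans hb.symm)⟩
  have hne : D.q x (u + b) ≠ D.q x u := by
    intro h
    apply hb0
    exact (q_eq_iff.1 h).of_eq rfl (eo (by
      abel_nf <;> simp only [ch2, ch3, ch4, add_zero, zero_add]))
  rw [← hb] at h2 h3
  exact ⟨b, hb0, hub, h2, hf, ncard_lt ⟨u, rfl⟩ h3 h2, ncard_lt ⟨u, rfl⟩ hne hf⟩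

/-- **(P2)**: every `g = q (x, u) ≠ 0` is a sum of primes `π ∈ Q_x` with `S_g ⊆ S_π` -/
theorem sum_primes [Finite V] {x : V} (P : V → Prop)
    (hadd : ∀ u u', P u → P u' → P (u + u')) {u : V} (hu : ¬ C D x u)
    (h : ∀ w, ¬ C D x w → Pri D (D.q x w) → (∀ s, Sg D (D.q x u) s → Sg D (D.q x w) s) → P w) :
    P u := by
  suffices key : ∀ n : ℕ, ∀ u, {s | ¬ Sg D (D.q x u) s}.ncard = n → ¬ C D x u →
      (∀ w, ¬ C D x w → Pri D (D.q x w) → (∀ s, Sg D (D.q x u) s → Sg D (D.q x w) s) → P w) →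
      P u from key _ u rfl hu h
  intro n
  induction n using Nat.strong_induction_on with
  | _ n ih =>
    intro u hn hu h
    by_cases hp : Pri D (D.q x u)
    · exact h u hu hp fun s hs => hs
    · obtain ⟨b, h1, h2, h3, h4, h5, h6⟩ := split_symbol' hp
      have e1 : P b := ih _ (by rw [← hn]; exact h5) b rfl h1 fun w hw hp' hs =>
        h w hw hp' fun s hs' => hs s (h3 s hs')
      have e2 : P (u + b) := ih _ (by rw [← hn]; exact h6) (u + b) rfl h2 fun w hw hp' hs =>
        h w hw hp' fun s hs' => hs s (h4 s hs')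
      have e3 := hadd _ _ e2 e1
      rwa [add_assoc, ETCR2.two, add_zero] at e3

/-- **LAW SUB at the prime symbols of `Q_x` + D2C+ refute world A** (note 2677, helper55):
`x` of minimal rank in a structure with `K4At`, no symbol of `V_x` is a value of `x`, and the
classes `N (π) ∪ 0`, `π ∈ Q_x` prime, are closed under addition. -/
theorem parity_sub_prime [Finite V] (he : D.e = 0) {x u0 : V} (hu0 : ¬ C D x u0)
    (mr : ∀ v, v ≠ 0 → Nat.card (D.ann v) ≤ Nat.card (D.ann x)) (k4 : ETCD2.K4At D x)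
    (hA : ∀ u k l, ¬ C D x u → C D x k → C D x l → D.q k l ≠ D.q x u)
    (sub : ∀ w t t', ¬ C D x w → Pri D (D.q x w) → ETCR2.Nb D x w t → ETCR2.Nb D x w t' →
      ETCR2.Nb D x w (t + t')) : False := by
  have hr : ∀ u t, C D x u → ETCR2.Nb D x t u := fun u t h => ETCR2.Nb.zero h
  refine ETCR2.parity_rel he hu0 mr k4 (fun u t => ∀ w, ¬ C D x w → Pri D (D.q x w) →
    (∀ s, Sg D (D.q x u) s → Sg D (D.q x w) s) → ETCR2.Nb D x w t) ?_ ?_ ?_ ?_ ?_
  · intro u t h w' hw' hp' hs'
    by_cases hu : C D x u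
    · exact hr u w' hu
    · refine sum_primes (D := D) (x := x) (fun v => ETCR2.Nb D x w' v) ?_ hu ?_
      · intro a a' h1 h2
        exact sub w' a a' hw' hp' h1 h2
      · intro w hw hp hs
        exact Nb.mono hs' ((h w hw hp hs).symm he)
  · intro u t ht w _ _ _
    exact hr t w ht
  · intro u t t' _ h h' w hw hp hs
    exact sub w t t' hw hp (h w hw hp hs) (h' w hw hp hs)
  · intro u hu h
    -- there is a prime `w` over `u`
    by_contra _
    have : ∃ w, ¬ C D x w ∧ Pri D (D.q x w) ∧ ∀ s, Sg D (D.q x u) s → Sg D (D.q x w) s := by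
      by_contra hno
      push Not at hno
      have h0 := sum_primes (D := D) (x := x) (fun v => C D x v) (fun a a' h1 h2 => h1.add h2) hu (fun w hw hp hs => by
          obtain ⟨s, h1, h2⟩ := hno w hw hp
          exact absurd (hs s h1) h2)
      exact hu h0
    obtain ⟨w, hw, hp, hs⟩ := this
    have h1 := (h w hw hp hs).symm he
    have h2 := Nb.mono hs h1
    obtain ⟨k, l, h3, h4, h5⟩ := h2.loop
    exact hA w k l hw h3 h4 h5
  · intro u t hu ht h w hw hp hs
    exact Nb.mono hs h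

end Pool.Agent.ETPF
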