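import Pool.Agent.ETPF.OneSym

/-!
Symbols of a finite quaternionic structure with `-1 = 1`: the symmetry lemma (note 1981, helper32),
stabilizers (note 2119, helper96; note 2633, helper37), propagation (notes 2605, 2655), and the
injectivity of `g ↦ S_g` by the Perron vector (notes 24835 of helper26, 2658 of helper5).
-/

set_option autoImplicit false
set_option linter.unusedSimpArgs false
set_option linter.unnecessarySeqFocus false
set_option linter.unusedSectionVars false

namespace Pool.Agent.ETPF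

open Pool.Agent.Helper58.PLine (QData)
open Pool.Agent.ETCP

variable {V Q : Type} [AddCommGroup V] [Module (ZMod 2) V] {D : QData V Q}

/-- the slots of the symbol `g` -/
def Sg (D : QData V Q) (g : Q) (s : V) : Prop := ∃ r, D.q s r = g

theorem Sg.left {g : Q} {s r : V} (h : D.q s r = g) : Sg D g s := ⟨r, h⟩

theorem Sg.right {g : Q} {s r : V} (h : D.q s r = g) : Sg D g r := ⟨s, by rw [D.symm]; exact h⟩

theorem Sg.common {g : Q} {s t : V} (hs : Sg D g s) (ht : Sg D g t) :
    ∃ r, D.q s r = g ∧ D.q t r = g := by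
  obtain ⟨a, ha⟩ := hs
  obtain ⟨b, hb⟩ := ht
  obtain ⟨r, h1, h2⟩ := D.link s a t b (ha.trans hb.symm)
  exact ⟨r, h1.symm.trans ha, h2.symm.trans hb⟩

theorem sg_add {g : Q} {s t : V} (ht : Sg D g t) :
    Sg D g (t + s) ↔ ∃ r, C D s r ∧ D.q t r = g := by
  constructor
  · intro h
    obtain ⟨r, h1, h2⟩ := h.common ht
    refine ⟨r, ?_, h2⟩
    exact (q_eq'_iff.1 (h1.trans h2.symm)).of_eq (eo (by
      abel_nf <;> simp only [ch2, ch3, ch4, add_zero, zero_add])) rfl
  · rintro ⟨r, h1, h2⟩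
    refine ⟨r, ?_⟩
    rw [← h2]
    exact q_eq' (h1.of_eq (eo (by
      abel_nf <;> simp only [ch2, ch3, ch4, add_zero, zero_add])) rfl)

/-- `q (s, r) = g` is preserved by adding elements of `V_s` -/
theorem qa {g : Q} {s r k : V} (h : D.q s r = g) (hk : C D s k) : D.q s (r + k) = g := by
  rw [← h]
  exact q_eq (hk.of_eq rfl (eo (by
    abel_nf <;> simp only [ch2, ch3, ch4, add_zero, zero_add])))

/-! ### indicator sums -/

open Classical in
/-- indicator -/
noncomputable def i1 (P : Prop) : ℝ := if P then 1 else 0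

theorem i1_true {P : Prop} (h : P) : i1 P = 1 := if_pos h

theorem i1_false {P : Prop} (h : ¬ P) : i1 P = 0 := if_neg h

theorem i1_congr {P P' : Prop} (h : P ↔ P') : i1 P = i1 P' := by rw [propext h]

theorem i1_nonneg (P : Prop) : 0 ≤ i1 P := by
  by_cases h : P
  · rw [i1_true h]; exact zero_le_one
  · rw [i1_false h]

theorem i1_and (P P' : Prop) : i1 (P ∧ P') = i1 P * i1 P' := by
  by_cases h : P
  · by_cases h' : P'
    · rw [i1_true h, i1_true h', i1_true ⟨h, h'⟩, one_mul]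
    · rw [i1_false h', i1_false fun hh => h' hh.2, mul_zero]
  · rw [i1_false h, i1_false fun hh => h hh.1, zero_mul]

theorem sum_i1_shift [Fintype V] {P P' : V → Prop} (a : V) (h : ∀ v, P (v + a) ↔ P' v) :
    ∑ v, i1 (P v) = ∑ v, i1 (P' v) := by
  rw [← Equiv.sum_comp (Equiv.addRight a)]
  exact Finset.sum_congr rfl fun v _ => i1_congr (h v)

theorem sum_i1_pos [Fintype V] {P : V → Prop} {v : V} (h : P v) : 0 < ∑ v, i1 (P v) :=
  Finset.sum_pos' (fun v _ => i1_nonneg _) ⟨v, Finset.mem_univ _, by rw [i1_true h]; norm_num⟩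

theorem sum_i1_zero [Fintype V] {P : V → Prop} (h : ∀ v, ¬ P v) : ∑ v, i1 (P v) = 0 :=
  Finset.sum_eq_zero fun v _ => i1_false (h v)

variable (D) in
/-- `|V_s ∩ V_t|` -/
noncomputable def nn [Fintype V] (s t : V) : ℝ := ∑ v, i1 (C D s v ∧ C D t v)

theorem nn_pos [Fintype V] (s t : V) : 0 < nn D s t :=
  sum_i1_pos (v := 0) ⟨C.zero s, C.zero t⟩

theorem cnt_eq [Fintype V] {g g' : Q} {s t r : V} (h : D.q s r = g) (h' : D.q t r = g') :
    ∑ v, i1 (D.q s v = g ∧ D.q t v = g') = nn D s t := by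
  refine sum_i1_shift r fun v => ?_
  rw [← h, ← h', q_eq_iff, q_eq_iff]
  have e : v + r + r = v := eo (by abel_nf <;> simp only [ch2, ch3, ch4, add_zero, zero_add])
  rw [e]

theorem cnt_le [Fintype V] (g g' : Q) (s t : V) :
    ∑ v, i1 (D.q s v = g ∧ D.q t v = g') ≤ nn D s t := by
  by_cases h : ∃ r, D.q s r = g ∧ D.q t r = g'
  · obtain ⟨r, h1, h2⟩ := h
    exact (cnt_eq h1 h2).le
  · rw [sum_i1_zero fun v hv => h ⟨v, hv⟩]
    exact (nn_pos s t).le

theorem cnt_link [Fintype V] {g : Q} {s t : V} (hs : Sg D g s) (ht : Sg D g t) :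
    ∑ v, i1 (D.q s v = g ∧ D.q t v = g) = nn D s t := by
  obtain ⟨r, h1, h2⟩ := hs.common ht
  exact cnt_eq h1 h2

/-! ### the symmetry lemma -/

variable (D) in
/-- `#{(w, r) | w ∈ V_d, r ∈ V_w, q (y, r) = g}` -/
noncomputable def AA [Fintype V] (g : Q) (y d : V) : ℝ :=
  ∑ w, ∑ r, i1 (C D d w ∧ (D.q w r = D.z ∧ D.q y r = g))

variable (D) in
/-- `#{(w, r) | w ∈ V_d, r ∈ V_w ∩ V_y}` -/
noncomputable def BB [Fintype V] (y d : V) : ℝ :=
  ∑ w, ∑ r, i1 (C D d w ∧ (C D w r ∧ C D y r))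

theorem AA_term [Fintype V] (g : Q) (y d w : V) :
    ∑ r, i1 (C D d w ∧ (D.q w r = D.z ∧ D.q y r = g)) ≤
      ∑ r, i1 (C D d w ∧ (C D w r ∧ C D y r)) := by
  have h1 := cnt_le (D := D) D.z g w y
  simp only [i1_and (C D d w), ← Finset.mul_sum]
  exact mul_le_mul_of_nonneg_left h1 (i1_nonneg _)

theorem AA_symm [Fintype V] {g : Q} {y d : V} (hy : Sg D g y) (hd : Sg D g d) :
    AA D g y d = AA D g d y := by
  -- both are `#{(r, t) | q (y, r) = q (r, t) = q (t, d) = g}`
  have key : ∀ {y d : V}, Sg D g d →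
      AA D g y d = ∑ r, ∑ t, i1 (D.q y r = g ∧ (D.q r t = g ∧ D.q d t = g)) := by
    intro y d hd
    unfold AA
    rw [Finset.sum_comm]
    refine Finset.sum_congr rfl fun r _ => ?_
    by_cases hr : D.q y r = g
    · have e1 : ∑ w, i1 (C D d w ∧ (D.q w r = D.z ∧ D.q y r = g)) = nn D d r := by
        unfold nn
        refine Finset.sum_congr rfl fun w _ => i1_congr ⟨fun h => ⟨h.1, ?_⟩, fun h => ⟨h.1, ?_, hr⟩⟩
        · exact C.symm h.2.1
        · exact h.2.symm
      have e2 : ∑ t, i1 (D.q y r = g ∧ (D.q r t = g ∧ D.q d t = g)) = nn D d r := by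
        rw [← cnt_link hd (Sg.right hr)]
        exact Finset.sum_congr rfl fun t _ => i1_congr
          ⟨fun h => ⟨h.2.2, h.2.1⟩, fun h => ⟨hr, h.2, h.1⟩⟩
      rw [e1, e2]
    · rw [sum_i1_zero fun w hw => hr hw.2.2, sum_i1_zero fun t ht => hr ht.1]
  rw [key hd, key hy, Finset.sum_comm]
  refine Finset.sum_congr rfl fun t _ => Finset.sum_congr rfl fun r _ => i1_congr ?_
  rw [D.symm r t]
  tauto

theorem BB_symm [Fintype V] (y d : V) : BB D y d = BB D d y := by
  unfold BB
  rw [Finset.sum_comm]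
  refine Finset.sum_congr rfl fun r _ => Finset.sum_congr rfl fun w _ => i1_congr ?_
  constructor
  · rintro ⟨h1, h2, h3⟩
    exact ⟨h3, h2.symm, h1⟩
  · rintro ⟨h1, h2, h3⟩
    exact ⟨h3, h2.symm, h1⟩

/-- `y + V_d ⊆ S_g` -/
def Fm (D : QData V Q) (g : Q) (d y : V) : Prop := ∀ w, C D d w → Sg D g (y + w)

/-- **symmetry lemma** (note 1981): for slots `y`, `d` of `g`:
`y + V_d ⊆ S_g` if and only if `d + V_y ⊆ S_g` -/
theorem Fm.swap [Finite V] {g : Q} {y d : V} (hy : Sg D g y) (hd : Sg D g d) (h : Fm D g d y) :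
    Fm D g y d := by
  have := Fintype.ofFinite V
  have e1 : AA D g y d = BB D y d := by
    unfold AA BB
    refine Finset.sum_congr rfl fun w _ => ?_
    by_cases hw : C D d w
    · obtain ⟨r, h1, h2⟩ := (sg_add hy).1 (h w hw)
      have h3 := cnt_eq h1 h2
      simp only [i1_and (C D d w), ← Finset.mul_sum]
      rw [h3]
      rfl
    · rw [sum_i1_zero fun r hr => hw hr.1, sum_i1_zero fun r hr => hw hr.1]
  have e2 : AA D g d y = BB D d y := by rw [← AA_symm hy hd, e1, BB_symm]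
  intro w hw
  have e3 := (Finset.sum_eq_sum_iff_of_le fun w _ => AA_term (D := D) g d y w).1 e2 w
    (Finset.mem_univ _)
  by_contra hcon
  have e4 : ∑ r, i1 (C D y w ∧ (D.q w r = D.z ∧ D.q d r = g)) = 0 := by
    refine sum_i1_zero fun r hr => hcon ((sg_add hd).2 ⟨r, hr.2.1, hr.2.2⟩)
  have e5 : 0 < ∑ r, i1 (C D y w ∧ (C D w r ∧ C D d r)) :=
    sum_i1_pos (v := 0) ⟨hw, C.zero w, C.zero d⟩
  rw [← e3, e4] at e5
  exact lt_irrefl _ e5

theorem Fm.self {g : Q} {y d : V} (h : D.q d y = g) : Fm D g d y := fun _ hw =>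
  Sg.right (qa h hw)

/-- **TYPE I** (note 2119 (*), note 2633): `l` in the stabilizer of `S_g`, `q (x, r) = g`,
`q (x, s) = q (l, s)`; then `r + s + V_x ⊆ S_g` -/
theorem typeI [Finite V] {g : Q} {x l r s : V} (hr : D.q x r = g)
    (hl : ∀ t, Sg D g t → Sg D g (t + l)) (hs : C D (x + l) s) {k : V} (hk : C D x k) :
    Sg D g (r + s + k) := by
  have hx : Sg D g x := ⟨r, hr⟩
  -- `r + k ∈ F_x`
  have hr' : D.q x (r + k) = g := qa hr hk
  have sr : Sg D g (r + k) := Sg.right hr'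
  have h1 : Fm D g x (r + k) := Fm.self hr'
  have h2 : Fm D g (r + k) x := Fm.swap sr hx h1
  have h3 : Fm D g (r + k) (x + l) := by
    intro w hw
    have := hl _ (h2 w hw)
    have e : x + w + l = x + l + w := by abel
    rwa [e] at this
  have h4 : Fm D g (x + l) (r + k) := Fm.swap (hl x hx) sr h3
  have h5 := h4 s hs
  have e : r + k + s = r + s + k := by abel
  rwa [e] at h5

/-- **propagation** (note 2605): `x` a slot of `f` and of `g`, all `r` with `q (x, r) = g` slots of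
`f`; then `S_g ⊆ S_f` -/
theorem propagate [Finite V] {f g : Q} {x : V} (hf : Sg D f x) (hg : Sg D g x)
    (h : ∀ r, D.q x r = g → Sg D f r) {s : V} (hs : Sg D g s) : Sg D f s := by
  obtain ⟨r, h1, h2⟩ := hg.common hs
  have h3 : Fm D f x r := fun w hw => h _ (qa h1 hw)
  have h4 : Fm D f r x := Fm.swap (h r h1) hf h3
  have h5 : C D r (x + s) := by
    rw [← q_eq_iff, D.symm r x, D.symm r s, h1, h2]
  have h6 := h4 _ h5
  have e : x + (x + s) = s := eo (by abel_nf <;> simp only [ch2, ch3, ch4, add_zero, zero_add])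
  rwa [e] at h6

/-! ### `g ↦ S_g` is injective -/

theorem sum_slots [Fintype V] {g : Q} [Fintype {s // Sg D g s}] (f : V → ℝ)
    (h : ∀ v, ¬ Sg D g v → f v = 0) : ∑ k : {s // Sg D g s}, f k = ∑ v, f v := by
  classical
  rw [← Finset.sum_subtype (Finset.univ.filter fun v => Sg D g v) (by simp) f]
  exact Finset.sum_subset (Finset.filter_subset _ _) fun v _ hv => h v (by simpa using hv)

/-- **(P1)** (26, 5): distinct nonzero symbols have distinct sets of slots -/
theorem sg_inj [Finite V] {g g' : Q} {s0 : V} (h0 : Sg D g s0)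
    (h : ∀ s, Sg D g s ↔ Sg D g' s) : g = g' := by
  by_contra hne
  have := Fintype.ofFinite V
  have := Fintype.ofFinite {s // Sg D g s}
  have : Nonempty {s // Sg D g s} := ⟨⟨s0, h0⟩⟩
  let T : Q → {s // Sg D g s} → {s // Sg D g s} → ℝ := fun a s t => i1 (D.q s t = a)
  let M : {s // Sg D g s} → {s // Sg D g s} → ℝ := fun s t => nn D s t
  have hmm : ∀ a a', (∀ v, Sg D a v → Sg D g v) → ∀ s t, mm (T a) (T a') s t =
      ∑ v, i1 (D.q s v = a ∧ D.q t v = a') := by
    intro a a' ha s t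
    unfold mm
    rw [← sum_slots (D := D) (g := g) (fun v => i1 (D.q s v = a ∧ D.q t v = a'))]
    · refine Finset.sum_congr rfl fun k _ => ?_
      rw [i1_and, D.symm t k]
    · intro v hv
      exact i1_false fun hh => hv (ha v (Sg.right hh.1))
  have hT : mm (T g) (T g) = M := by
    funext s t
    rw [hmm g g fun v hv => hv]
    exact cnt_link s.2 t.2
  have hT' : mm (T g') (T g') = M := by
    funext s t
    rw [hmm g' g' fun v hv => (h v).2 hv]
    exact cnt_link ((h s).1 s.2) ((h t).1 t.2)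
  have hM : ∀ i j, 0 < M i j := fun i j => nn_pos _ _
  obtain ⟨p, μ, hp, hμ, hMp, hu⟩ := perron hM
  have hnn : ∀ a i, 0 ≤ ap (T a) p i := fun a i =>
    Finset.sum_nonneg fun j _ => mul_nonneg (i1_nonneg _) (hp j).le
  obtain ⟨θ, hθ⟩ := comm_eig (A := T g) hMp hu (by
    rw [← hT]; funext s t; unfold mm; simp only [Finset.mul_sum, Finset.sum_mul]
    rw [Finset.sum_comm]
    exact Finset.sum_congr rfl fun _ _ => Finset.sum_congr rfl fun _ _ => by ring)
  obtain ⟨θ', hθ'⟩ := comm_eig (A := T g') hMp hu (by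
    rw [← hT']; funext s t; unfold mm; simp only [Finset.mul_sum, Finset.sum_mul]
    rw [Finset.sum_comm]
    exact Finset.sum_congr rfl fun _ _ => Finset.sum_congr rfl fun _ _ => by ring)
  let i0 : {s // Sg D g s} := ⟨s0, h0⟩
  have q1 : 0 ≤ θ := by
    have := hnn g i0
    rw [hθ] at this
    exact nonneg_of_mul_nonneg_left this (hp i0)
  have q2 : 0 ≤ θ' := by
    have := hnn g' i0
    rw [hθ'] at this
    exact nonneg_of_mul_nonneg_left this (hp i0)
  have sq : ∀ a b α β, (∀ i, ap (T a) p i = α * p i) → (∀ i, ap (T b) p i = β * p i) →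
      ∀ i, ap (mm (T a) (T b)) p i = α * β * p i := by
    intro a b α β ha hb i
    rw [ap_mm, show ap (T b) p = fun j => β * p j from funext hb, ap_smul, ha]
    ring
  have r1 : θ * θ = μ := by
    have h1 := sq g g θ θ hθ hθ i0
    rw [hT, hMp i0] at h1
    exact (mul_right_cancel₀ (hp i0).ne' h1).symm
  have r2 : θ' * θ' = μ := by
    have h1 := sq g' g' θ' θ' hθ' hθ' i0
    rw [hT', hMp i0] at h1
    exact (mul_right_cancel₀ (hp i0).ne' h1).symm
  have r3 : θ = θ' := (mul_self_inj q1 q2).1 (r1.trans r2.symm)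
  have h1 := sq g g' θ θ' hθ hθ' i0
  rw [← r3, r1, ← hMp i0] at h1
  have h2 := row_eq (A := mm (T g) (T g')) (B := M) hp (i := i0) (fun j => by
    rw [hmm g g' fun v hv => hv]; exact cnt_le _ _ _ _) h1 i0
  rw [hmm g g' fun v hv => hv, sum_i1_zero fun v hv => hne (hv.1.symm.trans hv.2)] at h2
  exact (hM i0 i0).ne h2

end Pool.Agent.ETPF
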